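import Pool.Agent.Work.MP_2738db_nt_Y_helper87.IDP

/-!
Theorem Y, phase 5, block ID4: the ideals `(x - ζ ^ j Y)` if `x ^ 4 - Y ^ 4 = ± c ^ k`.
-/

set_option autoImplicit false

namespace Pool.Agent.Work.MP_2738db_nt_Y.helper87

open Finset NumberField

variable {K : Type} [Field K] [NumberField K]

set_option linter.unusedSectionVars false

lemma not_both {x Y : ℤ} (hxY : IsCoprime x Y) (P : Ideal (𝓞 K)) (hP : P.IsPrime)
    (hx : (x : 𝓞 K) ∈ P) (hY : (Y : 𝓞 K) ∈ P) : False := by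
  obtain ⟨a, b, hab⟩ := hxY
  apply hP.ne_top
  rw [Ideal.eq_top_iff_one]
  have h5 : (1 : 𝓞 K) = (a : 𝓞 K) * (x : 𝓞 K) + (b : 𝓞 K) * (Y : 𝓞 K) := by
    have : ((a * x + b * Y : ℤ) : 𝓞 K) = ((1 : ℤ) : 𝓞 K) := by rw [hab]
    push_cast at this
    exact this.symm
  rw [h5]
  exact P.add_mem (P.mul_mem_left _ hx) (P.mul_mem_left _ hY)

lemma two_mem4 {μ : 𝓞 K} (hμ : μ ^ 2 = -1) {x Y : ℤ} (hxY : IsCoprime x Y)
    (P : Ideal (𝓞 K)) (hP : P.IsPrime) (hz : (x : 𝓞 K) - μ * (Y : 𝓞 K) ∈ P)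
    (hW : ((x : 𝓞 K) + μ * (Y : 𝓞 K)) * (((x : 𝓞 K) - (Y : 𝓞 K)) * ((x : 𝓞 K) + (Y : 𝓞 K))) ∈ P) :
    (2 : 𝓞 K) ∈ P := by
  have hYx : (Y : 𝓞 K) ∈ P → False := by
    intro hY
    refine not_both hxY P hP ?_ hY
    have := P.add_mem hz (P.mul_mem_left μ hY)
    have e : (x : 𝓞 K) - μ * (Y : 𝓞 K) + μ * (Y : 𝓞 K) = x := by ring
    rwa [e] at this
  rcases hP.mem_or_mem hW with h | h
  · have h1 := P.sub_mem h hz
    have e : (x : 𝓞 K) + μ * (Y : 𝓞 K) - ((x : 𝓞 K) - μ * (Y : 𝓞 K)) = (2 * μ) * (Y : 𝓞 K) := by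
      ring
    rw [e] at h1
    rcases hP.mem_or_mem h1 with h2 | h2
    · have h3 := P.mul_mem_right (-μ) h2
      have e2 : 2 * μ * (-μ) = 2 := by
        have : 2 * μ * (-μ) = -2 * μ ^ 2 := by ring
        rw [this, hμ]; ring
      rwa [e2] at h3
    · exact (hYx h2).elim
  rcases hP.mem_or_mem h with h | h
  · have h1 := P.sub_mem hz h
    have e : (x : 𝓞 K) - μ * (Y : 𝓞 K) - ((x : 𝓞 K) - (Y : 𝓞 K)) = (1 - μ) * (Y : 𝓞 K) := by ring
    rw [e] at h1
    rcases hP.mem_or_mem h1 with h2 | h2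
    · have h3 := P.mul_mem_right (1 + μ) h2
      have e2 : (1 - μ) * (1 + μ) = 2 := by
        have : (1 - μ) * (1 + μ) = 1 - μ ^ 2 := by ring
        rw [this, hμ]; ring
      rwa [e2] at h3
    · exact (hYx h2).elim
  · have h1 := P.sub_mem h hz
    have e : (x : 𝓞 K) + (Y : 𝓞 K) - ((x : 𝓞 K) - μ * (Y : 𝓞 K)) = (1 + μ) * (Y : 𝓞 K) := by ring
    rw [e] at h1
    rcases hP.mem_or_mem h1 with h2 | h2
    · have h3 := P.mul_mem_right (1 - μ) h2
      have e2 : (1 + μ) * (1 - μ) = 2 := by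
        have : (1 + μ) * (1 - μ) = 1 - μ ^ 2 := by ring
        rw [this, hμ]; ring
      rwa [e2] at h3
    · exact (hYx h2).elim

theorem id4 : Stmt_Id4 := by
  intro K _ _ ζ x Y c k j hζ hxY hc hk heq hj
  set μ : 𝓞 K := ζ ^ j with hμdef
  have hζ2 : ζ ^ 2 = -1 := by
    have h4 : ζ ^ 4 = 1 := hζ.pow_eq_one
    have h2 : ζ ^ 2 ≠ 1 := hζ.pow_ne_one_of_pos_of_lt (by norm_num) (by norm_num)
    have h5 : (ζ ^ 2 - 1) * (ζ ^ 2 + 1) = 0 := by
      have : (ζ ^ 2 - 1) * (ζ ^ 2 + 1) = ζ ^ 4 - 1 := by ring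
      rw [this, h4, sub_self]
    rcases mul_eq_zero.mp h5 with h | h
    · exact absurd (sub_eq_zero.mp h) h2
    · exact eq_neg_of_add_eq_zero_left h
  have hμ : μ ^ 2 = -1 := by
    rw [hμdef, ← pow_mul, mul_comm, pow_mul, hζ2]
    exact hj.neg_one_pow
  have hjc : j.Coprime 4 := by
    have h1 : Nat.Coprime j 2 := (Nat.coprime_two_right).mpr hj
    have h2 : Nat.Coprime j (2 ^ 2) := Nat.Coprime.pow_right 2 h1
    simpa using h2
  have hspan : Ideal.span {1 - μ} = Ideal.span {1 - ζ} := by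
    have h := hζ.associated_sub_one_pow_sub_one_of_coprime hjc
    have h2 : Associated (1 - ζ) (1 - μ) := by
      have := h.neg_left.neg_right
      simpa [hμdef] using this
    exact (Ideal.span_singleton_eq_span_singleton.mpr h2).symm
  set W : 𝓞 K := ((x : 𝓞 K) + μ * (Y : 𝓞 K)) *
    (((x : 𝓞 K) - (Y : 𝓞 K)) * ((x : 𝓞 K) + (Y : 𝓞 K))) with hW
  have hfac : (x : 𝓞 K) ^ 4 - (Y : 𝓞 K) ^ 4 = ((x : 𝓞 K) - μ * Y) * W := by
    have : ((x : 𝓞 K) - μ * Y) * W = ((x : 𝓞 K) ^ 2 - μ ^ 2 * (Y : 𝓞 K) ^ 2) *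
        ((x : 𝓞 K) ^ 2 - (Y : 𝓞 K) ^ 2) := by rw [hW]; ring
    rw [this, hμ]; ring
  have heq' : ((x : 𝓞 K) - μ * Y) * W = (c : 𝓞 K) ^ k ∨
      ((x : 𝓞 K) - μ * Y) * W = -(c : 𝓞 K) ^ k := by
    rw [← hfac]
    rcases heq with h | h
    · left
      have := congrArg (fun t : ℤ => (t : 𝓞 K)) h
      push_cast at this
      exact this
    · right
      have := congrArg (fun t : ℤ => (t : 𝓞 K)) h
      push_cast at this
      exact this
  have h4of : ∀ P : Ideal (𝓞 K), P.IsPrime → (4 : 𝓞 K) ∈ P → (2 : 𝓞 K) ∈ P := by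
    intro P hP h
    have e : (4 : 𝓞 K) = 2 * 2 := by norm_num
    rw [e] at h
    rcases hP.mem_or_mem h with h | h <;> exact h
  have h12 : (1 - μ) * (1 + μ) = 2 := by
    have : (1 - μ) * (1 + μ) = 1 - μ ^ 2 := by ring
    rw [this, hμ]; ring
  -- odd integers are not in a prime above 2
  have hodd : ∀ P : Ideal (𝓞 K), P.IsPrime → (2 : 𝓞 K) ∈ P → ∀ y : ℤ, Odd y → (y : 𝓞 K) ∈ P →
      False := by
    intro P hP h2 y hy hyP
    obtain ⟨m, rfl⟩ := hy
    apply hP.ne_top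
    rw [Ideal.eq_top_iff_one]
    have := P.sub_mem hyP (P.mul_mem_right (m : 𝓞 K) h2)
    have e : (((2 * m + 1 : ℤ)) : 𝓞 K) - 2 * (m : 𝓞 K) = 1 := by push_cast; ring
    rwa [e] at this
  by_cases hpc : 2 ∣ c
  · have hev : Even (x ^ 4 - Y ^ 4) := by
      have h2 : Even ((c : ℤ) ^ k) := by
        rw [Int.even_pow]
        exact ⟨by rw [Int.even_coe_nat]; exact (even_iff_two_dvd).mpr hpc, by omega⟩
      rcases heq with h | h
      · rw [h]; exact h2
      · rw [h]; exact h2.neg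
    have hodds : Odd x ∧ Odd Y := by
      rw [Int.even_sub, Int.even_pow' (by norm_num), Int.even_pow' (by norm_num)] at hev
      by_contra hne
      have hex : Even x := by
        by_contra hx
        have hY : ¬ Even Y := fun h => hx (hev.mpr h)
        exact hne ⟨Int.not_even_iff_odd.mp hx, Int.not_even_iff_odd.mp hY⟩
      have heY := hev.mp hex
      have := hxY.isUnit_of_dvd' (even_iff_two_dvd.mp hex) (even_iff_two_dvd.mp heY)
      rw [Int.isUnit_iff] at this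
      omega
    obtain ⟨m, hm⟩ : (2 : ℤ) ∣ x - Y := even_iff_two_dvd.mp (hodds.1.sub_odd hodds.2)
    set u : 𝓞 K := (Y : 𝓞 K) + (m : 𝓞 K) * (1 + μ) with hu
    have hzu : (x : 𝓞 K) - μ * Y = (1 - μ) * u := by
      have h1 : (x : 𝓞 K) - Y = 2 * (m : 𝓞 K) := by
        have := congrArg (fun t : ℤ => (t : 𝓞 K)) hm
        push_cast at this
        exact this
      have h2 : (x : 𝓞 K) = Y + ((1 - μ) * (1 + μ)) * m := by rw [h12, ← h1]; ring
      rw [h2, hu]; ring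
    have huP : ∀ P : Ideal (𝓞 K), P.IsPrime → u ∈ P → (2 : 𝓞 K) ∉ P := by
      intro P hP h1 h2
      have h3 : (1 + μ) ∈ P := by
        have h4 : (1 + μ) ^ 2 ∈ P := by
          have e : (1 + μ) ^ 2 = μ * 2 := by
            have : (1 + μ) ^ 2 = 1 + 2 * μ + μ ^ 2 := by ring
            rw [this, hμ]; ring
          rw [e]; exact P.mul_mem_left _ h2
        exact hP.mem_of_pow_mem 2 h4
      refine hodd P hP h2 Y hodds.2 ?_
      have := P.sub_mem h1 (P.mul_mem_left (m : 𝓞 K) h3)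
      have e : u - (m : 𝓞 K) * (1 + μ) = Y := by rw [hu]; ring
      rwa [e] at this
    obtain ⟨𝔞, ha, hac⟩ := core u ((1 - μ) * W) c k hk hc
      (by
        have e : u * ((1 - μ) * W) = ((x : 𝓞 K) - μ * Y) * W := by rw [hzu]; ring
        rw [e]; exact heq')
      (by
        intro P hP h1 h2
        rcases hP.mem_or_mem h2 with h3 | h3
        · refine huP P hP h1 ?_
          rw [← h12]; exact P.mul_mem_right _ h3
        · refine huP P hP h1 (two_mem4 hμ hxY P hP ?_ h3)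
          rw [hzu]; exact P.mul_mem_left _ h1)
    refine ⟨Ideal.span {1 - ζ}, 𝔞, ?_, Or.inr rfl, hac, ?_⟩
    · rw [hzu, ← Ideal.span_singleton_mul_span_singleton, hspan, ha]
    · intro P hP hle h4
      refine huP P hP ?_ (h4of P hP h4)
      have h1 : u ∈ 𝔞 ^ k := by rw [← ha]; exact Ideal.mem_span_singleton_self u
      exact hle (Ideal.pow_le_self (by omega) h1)
  · have hzP : ∀ P : Ideal (𝓞 K), P.IsPrime → (x : 𝓞 K) - μ * Y ∈ P → (2 : 𝓞 K) ∉ P := by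
      intro P hP h1 h2
      have h3 : (c : 𝓞 K) ∈ P := by
        have h4 : (c : 𝓞 K) ^ k ∈ P := by
          have h5 := P.mul_mem_right W h1
          rcases heq' with h | h
          · rwa [h] at h5
          · rw [h] at h5; exact P.neg_mem_iff.mp h5
        exact hP.mem_of_pow_mem k h4
      refine hodd P hP h2 (c : ℤ) ?_ (by simpa using h3)
      rw [Int.odd_coe_nat]
      exact Nat.odd_iff.mpr (by omega)
    obtain ⟨𝔞, ha, hac⟩ := core ((x : 𝓞 K) - μ * (Y : 𝓞 K)) W c k hk hc heq'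
      (by intro P hP h1 h2; exact hzP P hP h1 (two_mem4 hμ hxY P hP h1 h2))
    refine ⟨⊤, 𝔞, ?_, Or.inl rfl, hac, ?_⟩
    · rw [ha, Ideal.top_mul]
    · intro P hP hle h4
      refine hzP P hP ?_ (h4of P hP h4)
      have h1 : (x : 𝓞 K) - μ * Y ∈ 𝔞 ^ k := by
        rw [← ha]; exact Ideal.mem_span_singleton_self _
      exact hle (Ideal.pow_le_self (by omega) h1)

end Pool.Agent.Work.MP_2738db_nt_Y.helper87
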