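import Pool.Agent.Work.MP_2738db_nt_Y.Interface5

/-!
Theorem Y, phase 5, block IDP: the ideals `(x - ζ ^ j Y)` if `x ^ p - Y ^ p = ± c ^ k`.
-/

set_option autoImplicit false

namespace Pool.Agent.Work.MP_2738db_nt_Y.helper87

open Finset NumberField

variable {K : Type} [Field K] [NumberField K]

set_option linter.unusedSectionVars false

lemma dvd_of_pow_dvd_pow' {I J : Ideal (𝓞 K)} {k : ℕ} (hk : 1 ≤ k) (hI : I ≠ 0) (hJ : J ≠ 0)
    (h : I ^ k ∣ J ^ k) : I ∣ J := by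
  classical
  rw [UniqueFactorizationMonoid.dvd_iff_normalizedFactors_le_normalizedFactors
    (pow_ne_zero _ hI) (pow_ne_zero _ hJ), UniqueFactorizationMonoid.normalizedFactors_pow,
    UniqueFactorizationMonoid.normalizedFactors_pow] at h
  rw [UniqueFactorizationMonoid.dvd_iff_normalizedFactors_le_normalizedFactors hI hJ]
  rw [Multiset.le_iff_count] at h ⊢
  intro a
  have := h a
  rw [Multiset.count_nsmul, Multiset.count_nsmul] at this
  exact Nat.le_of_mul_le_mul_left this (by omega)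

/-- coprime ideals whose product is a `k`-th power -/
lemma core (u w : 𝓞 K) (c k : ℕ) (hk : 1 ≤ k) (hc : 1 ≤ c)
    (huw : u * w = (c : 𝓞 K) ^ k ∨ u * w = -(c : 𝓞 K) ^ k)
    (hcop : ∀ P : Ideal (𝓞 K), P.IsPrime → u ∈ P → w ∈ P → False) :
    ∃ 𝔞 : Ideal (𝓞 K), Ideal.span {u} = 𝔞 ^ k ∧ 𝔞 ∣ Ideal.span {(c : 𝓞 K)} := by
  have hprod : Ideal.span {u} * Ideal.span {w} = (Ideal.span {(c : 𝓞 K)}) ^ k := by
    rw [Ideal.span_singleton_mul_span_singleton, Ideal.span_singleton_pow]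
    rcases huw with h | h
    · rw [h]
    · rw [h, Ideal.span_singleton_neg]
  have hcp : IsCoprime (Ideal.span {u}) (Ideal.span {w}) := by
    rw [Ideal.isCoprime_iff_sup_eq]
    by_contra h
    obtain ⟨M, hM, hle⟩ := Ideal.exists_le_maximal _ h
    refine hcop M hM.isPrime (hle ?_) (hle ?_)
    · exact Ideal.mem_sup_left (Ideal.mem_span_singleton_self u)
    · exact Ideal.mem_sup_right (Ideal.mem_span_singleton_self w)
  obtain ⟨𝔞, ha⟩ := exists_eq_pow_of_mul_eq_pow_of_coprime hcp hprod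
  have hc0 : Ideal.span {(c : 𝓞 K)} ≠ 0 := by
    intro h
    have h1 : (c : 𝓞 K) = 0 := by
      have : (c : 𝓞 K) ∈ Ideal.span {(c : 𝓞 K)} := Ideal.mem_span_singleton_self _
      rw [h] at this
      exact this
    have h2 : (c : ℕ) = 0 := by exact_mod_cast h1
    omega
  have hdvd : 𝔞 ^ k ∣ (Ideal.span {(c : 𝓞 K)}) ^ k := ⟨_, by rw [← hprod, ha]⟩
  have ha0 : 𝔞 ≠ 0 := by
    intro h
    rw [h, zero_pow (by omega)] at hdvd
    exact pow_ne_zero k hc0 (zero_dvd_iff.mp hdvd)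
  exact ⟨𝔞, ha, dvd_of_pow_dvd_pow' hk ha0 hc0 hdvd⟩

/-- `p ∈ P` if `1 - μ ∈ P`, `μ ≠ 1` a `p`-th root of unity -/
lemma p_mem_of {p : ℕ} (hp : p.Prime) {μ : 𝓞 K} (hμ : IsPrimitiveRoot μ p)
    (P : Ideal (𝓞 K)) (h : 1 - μ ∈ P) : (p : 𝓞 K) ∈ P := by
  obtain ⟨n, rfl⟩ : ∃ n, p = n + 1 := ⟨p - 1, by have := hp.pos; omega⟩
  have h1 := hμ.prod_one_sub_pow_eq_order
  have h2 : ((n + 1 : ℕ) : 𝓞 K) = ∏ k ∈ range n, (1 - μ ^ (k + 1)) := by
    rw [h1]; push_cast; ring
  rw [h2]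
  have hn : 0 ∈ range n := by
    rw [mem_range]; have := hp.two_le; omega
  rw [← Finset.mul_prod_erase _ _ hn]
  refine P.mul_mem_right _ ?_
  simpa using h

/-- the primitive root property for nontrivial roots -/
lemma prim_of {p : ℕ} (hp : p.Prime) {μ : 𝓞 K} (hμ : μ ^ p = 1) (h1 : μ ≠ 1) :
    IsPrimitiveRoot μ p := by
  have h := orderOf_dvd_of_pow_eq_one hμ
  rcases (Nat.dvd_prime hp).mp h with h2 | h2
  · exact absurd (orderOf_eq_one_iff.mp h2) h1
  · rw [← h2]; exact IsPrimitiveRoot.orderOf μ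

/-- (i) two of the factors have no common prime away from `p` -/
lemma no_common {p : ℕ} (hp : p.Prime) {x Y : ℤ} (hxY : IsCoprime x Y) {η η' : 𝓞 K}
    (hη : η ^ p = 1) (hη' : η' ^ p = 1) (hne : η ≠ η') (P : Ideal (𝓞 K)) (hP : P.IsPrime)
    (h1 : (x : 𝓞 K) - η * Y ∈ P) (h2 : (x : 𝓞 K) - η' * Y ∈ P) : (p : 𝓞 K) ∈ P := by
  have h3 : (η' - η) * (Y : 𝓞 K) ∈ P := by
    have := P.sub_mem h1 h2
    have e : (x : 𝓞 K) - η * Y - ((x : 𝓞 K) - η' * Y) = (η' - η) * (Y : 𝓞 K) := by ring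
    rwa [e] at this
  rcases hP.mem_or_mem h3 with h4 | h4
  · -- (η' - η) = η' (1 - η η'^(p-1))
    have hμ : (η * η' ^ (p - 1)) ^ p = 1 := by
      rw [mul_pow, hη, ← pow_mul, mul_comm (p - 1) p, pow_mul, hη', one_pow, mul_one]
    have hη'' : η' ^ (p - 1) * η' = 1 := by
      rw [← pow_succ, Nat.sub_add_cancel hp.one_lt.le, hη']
    have hμ1 : η * η' ^ (p - 1) ≠ 1 := by
      intro h
      apply hne
      calc η = η * (η' ^ (p - 1) * η') := by rw [hη'', mul_one]
        _ = (η * η' ^ (p - 1)) * η' := by ring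
        _ = η' := by rw [h, one_mul]
    refine p_mem_of hp (prim_of hp hμ hμ1) P ?_
    have e : 1 - η * η' ^ (p - 1) = η' ^ (p - 1) * (η' - η) := by
      rw [mul_sub, hη'']; ring
    rw [e]
    exact P.mul_mem_left _ h4
  · exfalso
    have hx : (x : 𝓞 K) ∈ P := by
      have := P.add_mem h1 (P.mul_mem_left η h4)
      have e : (x : 𝓞 K) - η * Y + η * Y = x := by ring
      rwa [e] at this
    obtain ⟨a, b, hab⟩ := hxY
    apply hP.ne_top
    rw [Ideal.eq_top_iff_one]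
    have h5 : (1 : 𝓞 K) = (a : 𝓞 K) * x + (b : 𝓞 K) * Y := by
      have : ((a * x + b * Y : ℤ) : 𝓞 K) = ((1 : ℤ) : 𝓞 K) := by rw [hab]
      push_cast at this
      exact this.symm
    rw [h5]
    exact P.add_mem (P.mul_mem_left _ hx) (P.mul_mem_left _ h4)

theorem idp : Stmt_Idp := by
  intro K _ _ p ζ x Y c k j hp hp3 hζ hxY hc hk heq hj
  classical
  set μ : 𝓞 K := ζ ^ j with hμdef
  have hjc : j.Coprime p := ((Nat.Prime.coprime_iff_not_dvd hp).mpr hj).symm
  have hμ : IsPrimitiveRoot μ p := hζ.pow_of_coprime j hjc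
  have hμp : μ ^ p = 1 := hμ.pow_eq_one
  have hspan : Ideal.span {1 - μ} = Ideal.span {1 - ζ} := by
    have h := hζ.associated_sub_one_pow_sub_one_of_coprime hjc
    have h2 : Associated (1 - ζ) (1 - μ) := by
      have := h.neg_left.neg_right
      simpa [hμdef] using this
    exact (Ideal.span_singleton_eq_span_singleton.mpr h2).symm
  -- factorisation
  have hmem : μ ∈ Polynomial.nthRootsFinset p (1 : 𝓞 K) := by
    rw [Polynomial.mem_nthRootsFinset hp.pos]; exact hμp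
  have hfac : (x : 𝓞 K) ^ p - (Y : 𝓞 K) ^ p = ((x : 𝓞 K) - μ * Y) *
      ∏ η ∈ (Polynomial.nthRootsFinset p (1 : 𝓞 K)).erase μ, ((x : 𝓞 K) - η * Y) := by
    rw [hζ.pow_sub_pow_eq_prod_sub_mul (x : 𝓞 K) (Y : 𝓞 K) hp.pos]
    exact (Finset.mul_prod_erase _ (fun η : 𝓞 K => (x : 𝓞 K) - η * Y) hmem).symm
  set W : 𝓞 K := ∏ η ∈ (Polynomial.nthRootsFinset p (1 : 𝓞 K)).erase μ, ((x : 𝓞 K) - η * Y)
    with hW
  have heq' : ((x : 𝓞 K) - μ * Y) * W = (c : 𝓞 K) ^ k ∨
      ((x : 𝓞 K) - μ * Y) * W = -(c : 𝓞 K) ^ k := by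
    rw [← hfac]
    rcases heq with h | h
    · left
      have := congrArg (fun t : ℤ => (t : 𝓞 K)) h
      push_cast at this
      exact this
    · right
      have := congrArg (fun t : ℤ => (t : 𝓞 K)) h
      push_cast at this
      exact this
  -- primes dividing z and W
  have hzW : ∀ P : Ideal (𝓞 K), P.IsPrime → (x : 𝓞 K) - μ * Y ∈ P → W ∈ P → (p : 𝓞 K) ∈ P := by
    intro P hP h1 h2
    rw [hW] at h2
    obtain ⟨η, hη, h3⟩ := (hP.prod_mem_iff).mp h2
    rw [Finset.mem_erase, Polynomial.mem_nthRootsFinset hp.pos] at hη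
    exact no_common hp hxY hμp hη.2 (Ne.symm hη.1) P hP h1 h3
  by_cases hpc : p ∣ c
  · -- p ∣ c
    have hpxY : (p : ℤ) ∣ x - Y := by
      haveI := Fact.mk hp
      have h1 : (p : ℤ) ∣ x ^ p - Y ^ p := by
        have h2 : (p : ℤ) ∣ (c : ℤ) ^ k :=
          dvd_pow (by exact_mod_cast hpc) (by omega)
        rcases heq with h | h
        · rw [h]; exact h2
        · rw [h]; exact (dvd_neg.mpr h2)
      rw [← ZMod.intCast_zmod_eq_zero_iff_dvd] at h1 ⊢
      push_cast at h1 ⊢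
      rwa [ZMod.pow_card, ZMod.pow_card] at h1
    obtain ⟨m, hm⟩ := hpxY
    -- p = (1 - μ) v, with v in every prime above p
    obtain ⟨n, hn⟩ : ∃ n, p = n + 1 := ⟨p - 1, by omega⟩
    have hpe : (p : 𝓞 K) = ∏ i ∈ range n, (1 - μ ^ (i + 1)) := by
      have hμ' : IsPrimitiveRoot μ (n + 1) := hn ▸ hμ
      rw [hμ'.prod_one_sub_pow_eq_order, hn]; push_cast; ring
    have h0n : 0 ∈ range n := by rw [mem_range]; omega
    have h1n : 1 ∈ (range n).erase 0 := by
      rw [mem_erase, mem_range]; omega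
    set v : 𝓞 K := ∏ i ∈ (range n).erase 0, (1 - μ ^ (i + 1)) with hv
    have hpv : (p : 𝓞 K) = (1 - μ) * v := by
      rw [hpe, ← Finset.mul_prod_erase _ _ h0n]
      simp [hv]
    have hvd : (1 - μ) ∣ v := by
      rw [hv, ← Finset.mul_prod_erase _ _ h1n]
      refine Dvd.dvd.mul_right ?_ _
      exact ⟨1 + μ, by ring⟩
    have hvP : ∀ P : Ideal (𝓞 K), P.IsPrime → (p : 𝓞 K) ∈ P → v ∈ P := by
      intro P hP h
      rw [hpv] at h
      rcases hP.mem_or_mem h with h1 | h1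
      · exact P.mem_of_dvd hvd h1
      · exact h1
    set u : 𝓞 K := (Y : 𝓞 K) + (m : 𝓞 K) * v with hu
    have hzu : (x : 𝓞 K) - μ * Y = (1 - μ) * u := by
      have h1 : (x : 𝓞 K) - Y = (p : 𝓞 K) * m := by
        have := congrArg (fun t : ℤ => (t : 𝓞 K)) hm
        push_cast at this
        exact this
      have h2 : (x : 𝓞 K) = Y + (1 - μ) * v * m := by rw [← hpv, ← h1]; ring
      rw [h2, hu]; ring
    have huP : ∀ P : Ideal (𝓞 K), P.IsPrime → u ∈ P → (p : 𝓞 K) ∉ P := by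
      intro P hP h1 h2
      have hvm := hvP P hP h2
      have hY : (Y : 𝓞 K) ∈ P := by
        have := P.sub_mem h1 (P.mul_mem_left (m : 𝓞 K) hvm)
        have e : u - (m : 𝓞 K) * v = Y := by rw [hu]; ring
        rwa [e] at this
      have hcopY : IsCoprime (p : ℤ) Y := by
        rw [Int.isCoprime_iff_gcd_eq_one]
        by_contra hne
        have hdv : (p : ℤ) ∣ Y := by
          have h3 : ¬ IsCoprime (p : ℤ) Y := by
            rwa [Int.isCoprime_iff_gcd_eq_one]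
          have hpp : Prime (p : ℤ) := Nat.prime_iff_prime_int.mp hp
          by_contra h4
          exact h3 ((Prime.coprime_iff_not_dvd hpp).mpr h4)
        have hdx : (p : ℤ) ∣ x := by
          have : x = p * m + Y := by linarith
          rw [this]; exact dvd_add (dvd_mul_right _ _) hdv
        have := hxY.isUnit_of_dvd' hdx hdv
        rw [Int.isUnit_iff] at this
        omega
      obtain ⟨a, b, hab⟩ := hcopY
      apply hP.ne_top
      rw [Ideal.eq_top_iff_one]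
      have h5 : (1 : 𝓞 K) = (a : 𝓞 K) * (p : 𝓞 K) + (b : 𝓞 K) * Y := by
        have : ((a * p + b * Y : ℤ) : 𝓞 K) = ((1 : ℤ) : 𝓞 K) := by rw [hab]
        push_cast at this
        exact this.symm
      rw [h5]
      exact P.add_mem (P.mul_mem_left _ h2) (P.mul_mem_left _ hY)
    obtain ⟨𝔞, ha, hac⟩ := core u ((1 - μ) * W) c k hk hc
      (by
        have e : u * ((1 - μ) * W) = ((x : 𝓞 K) - μ * Y) * W := by rw [hzu]; ring
        rw [e]; exact heq')
      (by
        intro P hP h1 h2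
        rcases hP.mem_or_mem h2 with h3 | h3
        · exact huP P hP h1 (p_mem_of hp hμ P h3)
        · refine huP P hP h1 (hzW P hP ?_ h3)
          rw [hzu]; exact P.mul_mem_left _ h1)
    refine ⟨Ideal.span {1 - ζ}, 𝔞, ?_, Or.inr rfl, hac, ?_, fun _ => rfl, fun h => absurd hpc h⟩
    · rw [hzu, ← Ideal.span_singleton_mul_span_singleton, hspan, ha]
    · intro P hP hle
      refine huP P hP ?_
      have h1 : u ∈ 𝔞 ^ k := by rw [← ha]; exact Ideal.mem_span_singleton_self u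
      exact hle (Ideal.pow_le_self (by omega) h1)
  · -- p ∤ c
    have hzP : ∀ P : Ideal (𝓞 K), P.IsPrime → (x : 𝓞 K) - μ * Y ∈ P → (p : 𝓞 K) ∉ P := by
      intro P hP h1 h2
      have h3 : (c : 𝓞 K) ∈ P := by
        have h4 : (c : 𝓞 K) ^ k ∈ P := by
          have h5 := P.mul_mem_right W h1
          rcases heq' with h | h
          · rwa [h] at h5
          · rw [h] at h5; exact P.neg_mem_iff.mp h5
        exact hP.mem_of_pow_mem k h4
      have hcop : IsCoprime (p : ℤ) (c : ℤ) := by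
        rw [Nat.isCoprime_iff_coprime]
        exact (Nat.Prime.coprime_iff_not_dvd hp).mpr hpc
      obtain ⟨a, b, hab⟩ := hcop
      apply hP.ne_top
      rw [Ideal.eq_top_iff_one]
      have h5 : (1 : 𝓞 K) = (a : 𝓞 K) * (p : 𝓞 K) + (b : 𝓞 K) * (c : 𝓞 K) := by
        have : ((a * p + b * c : ℤ) : 𝓞 K) = ((1 : ℤ) : 𝓞 K) := by rw [hab]
        push_cast at this
        exact this.symm
      rw [h5]
      exact P.add_mem (P.mul_mem_left _ h2) (P.mul_mem_left _ h3)
    obtain ⟨𝔞, ha, hac⟩ := core ((x : 𝓞 K) - μ * (Y : 𝓞 K)) W c k hk hc heq'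
      (by intro P hP h1 h2; exact hzP P hP h1 (hzW P hP h1 h2))
    refine ⟨⊤, 𝔞, ?_, Or.inl rfl, hac, ?_, fun h => absurd h hpc, fun _ => rfl⟩
    · rw [ha, Ideal.top_mul]
    · intro P hP hle
      refine hzP P hP ?_
      have h1 : (x : 𝓞 K) - μ * Y ∈ 𝔞 ^ k := by
        rw [← ha]; exact Ideal.mem_span_singleton_self _
      exact hle (Ideal.pow_le_self (by omega) h1)

end Pool.Agent.Work.MP_2738db_nt_Y.helper87
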